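import Pool.Agent.RLT40.Final

/-!
# MP_d5a362_mp, Q1: radial potentials do not always realise the Lieb-Thirring ratio constant

In dimension `4`, for every sufficiently small `γ > 0`, the supremum `R_4(γ)` is finite and the supremum over radial potentials
is strictly smaller.
-/

namespace Pool.Agent.Results.MP_d5a362_mp.RadialGap

open Pool.Agent.RLT40

theorem result : ∃ γ₀ : ℝ, 0 < γ₀ ∧ ∀ γ : ℝ, 0 < γ → γ < γ₀ → Rn 4 γ < ⊤ ∧ Rrad 4 γ < Rn 4 γ := by
  obtain ⟨γ₀, h0, h⟩ := main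
  exact ⟨γ₀, h0, fun γ h1 h2 => ⟨(h γ h1 h2).2, (h γ h1 h2).1⟩⟩

end Pool.Agent.Results.MP_d5a362_mp.RadialGap
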